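import Pool.Agent.H85.Stek5

set_option autoImplicit false

namespace Pool.Agent.Results.MP_159441_gt.MeanCurvature

open Pool.Agent.H85.Stek4Defs Pool.Agent.H85.Stek5Defs

/-- On the 4-manifold with boundary `[0, π] × T³` there are two Steklov isospectral smooth
Riemannian metrics such that the boundary has constant mean curvature and constant principal
curvatures for the first, and neither for the second. -/
theorem result : ∃ g₁ g₂ : Pt → Matrix (Fin 4) (Fin 4) ℝ, IsMetric g₁ ∧ IsMetric g₂ ∧
    (∀ s, steklovMult g₁ s = steklovMult g₂ s) ∧ ConstMean g₁ ∧ ConstPrincipal g₁ ∧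
    ¬ ConstMean g₂ ∧ ¬ ConstPrincipal g₂ :=
  Pool.Agent.H85.Stek5.main

end Pool.Agent.Results.MP_159441_gt.MeanCurvature
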